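import Pool.Agent.J6H99.GEO.Sup

set_option autoImplicit false

open MeasureTheory Set ProbabilityTheory Filter
open scoped Topology

/-!
# First-passage percolation on `Z^d`, `d ≥ 3`: geodesics exist for all laws except possibly explosive
# critical ones

(1) For independent passage times, not necessarily identically distributed, which vanish with
probability at least `p`, where `p > p_c(d)`, geodesics exist almost surely.

(2) For i.i.d. passage times geodesics exist for every law `F` with `F(0) ≠ p_c(d)`.

(3) Hence the question in dimension `d` is equivalent to the question for the laws with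
`F(0) = p_c(d)` which are explosive in the sense of the criterion of the starting result
`NonExplosiveLaws`.

The library `Pool.Agent.Helper401_FP`, `Pool.Agent.Helper401_HS` (start files, helper401) contains the
percolation theory (half-spaces above the critical point, uniqueness, polynomial two-arm bound) and the
case of identically distributed passage times with `F(0) > p_c(d)`, which was not handed in. New here:
passage times which are not identically distributed (`Pool.Agent.J6H99.GEO`). The infinite cluster of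
the edges with passage time zero is unique by a coupling: mark the zero edges such that the marked edges
are an i.i.d. percolation with parameter `p`, give marked edges the passage time zero, the other zero
edges a summable sequence of small passage times and all other edges the passage time two. These
passage times do not explode, so every infinite cluster of zero edges meets the infinite cluster of
marked edges, which is unique.
-/

namespace Pool.Agent.Results.MP_716210_pr.AllButExplosiveCritical

noncomputable section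

/-- Vertices of `Z^d`. -/
abbrev V (d : ℕ) : Type := Fin d → ℤ

/-- Edges of `Z^d`: `(v, i)` is the edge joining `v` and `v + e_i`. -/
abbrev Edge (d : ℕ) : Type := (Fin d → ℤ) × Fin d

/-! ### Bond percolation and its critical probability -/

/-- `x` and `y` are the end points of an edge which is open in the configuration `η`. -/
def Open {d : ℕ} (η : Edge d → Bool) (x y : V d) : Prop :=
  ∃ e : Edge d, η e = true ∧ ((x = e.1 ∧ y = e.1 + Pi.single e.2 (1 : ℤ)) ∨
    (y = e.1 ∧ x = e.1 + Pi.single e.2 (1 : ℤ)))

/-- The open cluster of the origin. -/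
def cluster {d : ℕ} (η : Edge d → Bool) : Set (V d) := {y | Relation.ReflTransGen (Open η) 0 y}

/-- The Bernoulli law with parameter `p`. -/
def ber (p : unitInterval) : Measure Bool :=
  ENNReal.ofReal (p : ℝ) • Measure.dirac true + ENNReal.ofReal (1 - (p : ℝ)) • Measure.dirac false

instance (p : unitInterval) : IsProbabilityMeasure (ber p) :=
  inferInstanceAs (IsProbabilityMeasure (Pool.Agent.W783.PC.bern p))

/-- The percolation probability: the probability that the cluster of the origin is infinite when
the edges are open independently with probability `p`. -/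
def theta (d : ℕ) (p : unitInterval) : ℝ :=
  (Measure.infinitePi (fun _ : Edge d => ber p)).real {η | (cluster η).Infinite}

/-- The critical probability `p_c(d)` of bond percolation on `Z^d`. -/
def pc (d : ℕ) : ℝ := sSup {x : ℝ | ∃ p : unitInterval, (p : ℝ) = x ∧ theta d p = 0}

/-! ### First-passage percolation -/

/-- `p 0, ..., p n` are the vertices and `e 0, ..., e (n - 1)` the edges of a lattice path. -/
def IsPath {d n : ℕ} (p : Fin (n + 1) → V d) (e : Fin n → Edge d) : Prop :=
  ∀ i : Fin n,
    (p (Fin.castSucc i) = (e i).1 ∧ p (Fin.succ i) = (e i).1 + Pi.single (e i).2 (1 : ℤ)) ∨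
    (p (Fin.succ i) = (e i).1 ∧ p (Fin.castSucc i) = (e i).1 + Pi.single (e i).2 (1 : ℤ))

/-- For the passage times `w` every pair of vertices is joined by a path of minimal total passage
time. -/
def Geodesics {d : ℕ} (w : Edge d → ℝ) : Prop :=
  ∀ x y : V d, ∃ (n : ℕ) (p : Fin (n + 1) → V d) (e : Fin n → Edge d),
    p 0 = x ∧ p (Fin.last n) = y ∧ IsPath p e ∧
    ∀ (m : ℕ) (q : Fin (m + 1) → V d) (f : Fin m → Edge d),
      q 0 = x → q (Fin.last m) = y → IsPath q f → ∑ i, w (e i) ≤ ∑ i, w (f i)

/-- Geodesics exist almost surely for independent passage times, where `μ e` is the law of the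
passage time of the edge `e`. -/
def Exist (d : ℕ) (μ : Edge d → Measure ℝ) : Prop :=
  ∀ (Ω : Type) [MeasurableSpace Ω] (P : Measure Ω), IsProbabilityMeasure P →
    ∀ (X : Edge d → Ω → ℝ), (∀ e, Measurable (X e)) → iIndepFun X P →
      (∀ e, Measure.map (X e) P = μ e) → ∀ᵐ ω ∂P, Geodesics (fun e => X e ω)

/-- A law on `[0, ∞)`. -/
def IsLaw (μ : Measure ℝ) : Prop := IsProbabilityMeasure μ ∧ μ (Iio (0 : ℝ)) = 0

/-- The law is explosive: with `F t = μ (Iic t)`, every sequence `t_j ≥ 0` such that
`F (t_j) ≤ p_c(d) + exp (- κ ^ j)` for all `j`, for some `κ > 1`, is summable. -/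
def Explosive (d : ℕ) (μ : Measure ℝ) : Prop :=
  ∀ (κ : ℝ) (t : ℕ → ℝ), 1 < κ → (∀ j, 0 ≤ t j) →
    (∀ j, μ (Iic (t j)) ≤ ENNReal.ofReal (pc d + Real.exp (-(κ ^ j)))) → Summable t

lemma theta_eq (d : ℕ) (p : unitInterval) :
    theta d p = Pool.Agent.Y990.CB.th (Pool.Agent.Y990.CB.bondM d) p :=
  Pool.Agent.Helper401_FP.th_Opn p

lemma pc_eq (d : ℕ) : pc d = (Pool.Agent.Y990.CB.pc (Pool.Agent.Y990.CB.bondM d) : ℝ) := by
  unfold pc Pool.Agent.Y990.CB.pc
  simp only [theta_eq]

/-- Passage times which vanish with probability at least `p > p_c(d)`. -/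
theorem above (d : ℕ) (hd : 3 ≤ d) (μ : Edge d → Measure ℝ) (hμ : ∀ e, IsLaw (μ e)) (p : ℝ)
    (hp : pc d < p) (h0 : ∀ e, ENNReal.ofReal p ≤ μ e {0}) : Exist d μ := by
  intro Ω _ P hP X hX hi hlaw
  have hpr : ∀ e, IsProbabilityMeasure (μ e) := fun e => (hμ e).1
  have hpc0 : 0 ≤ pc d := by
    rw [pc_eq]
    exact (Pool.Agent.Y990.CB.pc (Pool.Agent.Y990.CB.bondM d)).2.1
  have hp1 : p ≤ 1 := by
    have e0 : Edge d := (0, ⟨0, by omega⟩)
    have h1 : ENNReal.ofReal p ≤ 1 := (h0 e0).trans prob_le_one
    rwa [ENNReal.ofReal_le_one] at h1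
  set q : unitInterval := ⟨p, by linarith, hp1⟩ with hq
  have hlt : Pool.Agent.Y990.CB.pc (Pool.Agent.Y990.CB.bondM d) < q := by
    rw [← Subtype.coe_lt_coe, ← pc_eq]
    exact hp
  have hmin := Pool.Agent.J6H99.GEO.sup' hd μ q (fun e => (hμ e).2) h0 hlt Ω P X hX hi hlaw
  filter_upwards [hmin] with ω hω x y
  exact Pool.Agent.Helper401_FP.fmt_min hω x y

/-- Identically distributed passage times which do not vanish with the critical probability. -/
theorem notCritical (d : ℕ) (hd : 3 ≤ d) (μ : Measure ℝ) (hμ : IsLaw μ)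
    (h : μ {0} ≠ ENNReal.ofReal (pc d)) : Exist d (fun _ => μ) := by
  have hpr := hμ.1
  set p : unitInterval := ⟨(μ {0}).toReal, ENNReal.toReal_nonneg, by
    have := prob_le_one (μ := μ) (s := {0})
    exact ENNReal.toReal_le_of_le_ofReal zero_le_one (by simpa using this)⟩ with hp
  have hp0 : μ {0} = ENNReal.ofReal p := (ENNReal.ofReal_toReal (measure_ne_top _ _)).symm
  have hne : (p : ℝ) ≠ pc d := by
    intro hc
    rw [hc] at hp0
    exact h hp0
  rcases lt_or_gt_of_ne hne with hlt | hgt
  · intro Ω _ P hP X hX hi hlaw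
    have hlt' : p < Pool.Agent.Y990.CB.pc (Pool.Agent.Y990.CB.bondM d) := by
      rw [← Subtype.coe_lt_coe, ← pc_eq]
      exact hlt
    have hmin := Pool.Agent.Helper401_FP.sub d μ p hμ.2 hp0 hlt' Ω P X hX hi hlaw
    filter_upwards [hmin] with ω hω x y
    exact Pool.Agent.Helper401_FP.fmt_min hω x y
  · exact above d hd (fun _ => μ) (fun _ => hμ) p hgt (fun _ => hp0.ge)

/-- Critical laws which are not explosive (the starting result `NonExplosiveLaws`). -/
theorem notExplosive (d : ℕ) (hd : 3 ≤ d) (μ : Measure ℝ) (hμ : IsLaw μ)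
    (h0 : μ {0} = ENNReal.ofReal (pc d)) (h : ¬ Explosive d μ) : Exist d (fun _ => μ) := by
  unfold Explosive at h
  push Not at h
  obtain ⟨κ, t, hκ, ht, htμ, hdiv⟩ := h
  have hpr := hμ.1
  obtain ⟨κ0, hκ0, h⟩ := Pool.Agent.Helper401_FP.crit hd
  intro Ω _ P hP X hX hi hlaw
  set p : unitInterval := Pool.Agent.Y990.CB.pc (Pool.Agent.Y990.CB.bondM d) with hp
  have hp0 : μ {0} = ENNReal.ofReal p := by rw [h0, pc_eq]
  have hge' : pc d ≤ (p : ℝ) := by rw [pc_eq]
  have hIoc : ∀ j, μ (Ioc 0 (t j)) ≤ ENNReal.ofReal (Real.exp (-(κ ^ j))) := by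
    intro j
    have h1 : ({0} : Set ℝ) ∪ Ioc 0 (t j) ⊆ Iic (t j) := by
      rintro x (rfl | hx)
      · exact ht j
      · exact hx.2
    have h2 : μ {0} + μ (Ioc 0 (t j)) ≤ ENNReal.ofReal (pc d + Real.exp (-(κ ^ j))) := by
      rw [← measure_union (by simp) measurableSet_Ioc]
      exact (measure_mono h1).trans (htμ j)
    have h3 : ENNReal.ofReal (pc d + Real.exp (-(κ ^ j))) ≤
        μ {0} + ENNReal.ofReal (Real.exp (-(κ ^ j))) := by
      rw [hp0, ← ENNReal.ofReal_add p.2.1 (Real.exp_pos _).le]
      exact ENNReal.ofReal_le_ofReal (by linarith)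
    exact (ENNReal.add_le_add_iff_left (measure_ne_top μ {0})).1 (h2.trans h3)
  -- a residue class along which the series diverges
  obtain ⟨c, hc⟩ : ∃ c : ℕ, κ0 ≤ κ ^ c :=
    (pow_unbounded_of_one_lt κ0 hκ).imp fun _ hh => hh.le
  have hc1 : 1 ≤ c := by
    by_contra hcon
    have : c = 0 := by omega
    rw [this, pow_zero] at hc
    linarith
  obtain ⟨r, _, hr⟩ := Pool.Agent.Helper401_FP.residue ht hdiv hc1
  have hmin := h μ p hμ.2 hp0 le_rfl (fun j => t (c * (j + 1) + r)) (fun j => ht _) (by
      intro hs
      exact hr ((summable_nat_add_iff (f := fun j => t (c * j + r)) 1).1 hs)) (by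
      intro j
      refine (hIoc _).trans (ENNReal.ofReal_le_ofReal (Real.exp_le_exp.2 (neg_le_neg ?_)))
      calc κ0 ^ (j + 1) ≤ (κ ^ c) ^ (j + 1) := pow_le_pow_left₀ (by linarith) hc _
        _ = κ ^ (c * (j + 1)) := by rw [pow_mul]
        _ ≤ κ ^ (c * (j + 1) + r) := pow_le_pow_right₀ hκ.le (Nat.le_add_right _ _))
      Ω P X hX hi hlaw
  filter_upwards [hmin] with ω hω x y
  exact Pool.Agent.Helper401_FP.fmt_min hω x y

/-- **Geodesics on `Z^d`, `d ≥ 3`.** (1) Geodesics exist for independent, not necessarily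
identically distributed passage times which vanish with probability at least `p`, where
`p > p_c(d)`. (2) They exist for i.i.d. passage times for every law `μ` with `μ {0} ≠ p_c(d)`.
(3) They exist for all laws if and only if they exist for all explosive laws with
`μ {0} = p_c(d)`. -/
theorem result (d : ℕ) (hd : 3 ≤ d) :
    (∀ (μ : Edge d → Measure ℝ) (p : ℝ), (∀ e, IsLaw (μ e)) → pc d < p →
      (∀ e, ENNReal.ofReal p ≤ μ e {0}) → Exist d μ) ∧
    (∀ μ : Measure ℝ, IsLaw μ → μ {0} ≠ ENNReal.ofReal (pc d) → Exist d (fun _ => μ)) ∧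
    ((∀ μ : Measure ℝ, IsLaw μ → Exist d (fun _ => μ)) ↔
      ∀ μ : Measure ℝ, IsLaw μ → μ {0} = ENNReal.ofReal (pc d) → Explosive d μ →
        Exist d (fun _ => μ)) := by
  refine ⟨fun μ p hμ hp h0 => above d hd μ hμ p hp h0, fun μ hμ h => notCritical d hd μ hμ h,
    fun h μ hμ _ _ => h μ hμ, fun h μ hμ => ?_⟩
  by_cases h0 : μ {0} = ENNReal.ofReal (pc d)
  · by_cases hE : Explosive d μ
    · exact h μ hμ h0 hE
    · exact notExplosive d hd μ hμ h0 hE
  · exact notCritical d hd μ hμ h0

end

end Pool.Agent.Results.MP_716210_pr.AllButExplosiveCritical
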